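import Pool.Agent.H673R3.UC.S2
import Pool.Agent.H673R3.UC.I1
import Pool.Agent.H673R3.UC.L1b
import Pool.Agent.H583R2.QC.Heavy
import Pool.Agent.H628R3.RO.K2
import Pool.Agent.H628R3.RO.K4

/-!
# Quantum algorithms for the language in `UP ∩ coUP`
-/

namespace Pool.Agent.H673R3.UC

open MeasureTheory Pool.Agent.NPC Pool.Agent.H628R3.RO
open Pool.Agent.H620R2.Gauge (Gate accProb)

/-- the circuits `C` decide the instances of stage `n` -/
def GoodQ (C : List Bool → List Unit × List Gate) (n s : ℕ) : Set Oracle :=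
  {A | ∀ b < BB s, ∀ j < KK s, A ∈ Others n s b j →
    (A ∉ NoHit (wl n) (half n s b (2 * j)) → 2 / 3 ≤ accProb A (C (inst n s b j A))) ∧
    (A ∈ NoHit (wl n) (half n s b (2 * j)) → accProb A (C (inst n s b j A)) ≤ 1 / 3)}

theorem loc_GoodQ {C : List Bool → List Unit × List Gate} (hC : PolyTime (fun x => bits (C x))) :
    ∃ b : Polynomial ℕ, ∀ n s, s ≤ n → Loc {x | x.length ≤ b.eval (2 ^ n)} (GoodQ C n s) := by
  obtain ⟨q, hq⟩ := H620R2.Gauge.circ_bound hC
  obtain ⟨P, hP⟩ := inst_length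
  obtain ⟨S, hS⟩ := length_spotsB
  refine ⟨S + q.comp P, fun n s hs => loc_of_imp fun A A' h => ?_⟩
  have hn2 : n ≤ 2 ^ n := Nat.lt_two_pow_self.le
  have h' : ∀ z : List Bool, z.length ≤ S.eval (2 ^ n) + q.eval (P.eval (2 ^ n)) →
      A z = A' z := by
    intro z hz
    apply h z
    change z.length ≤ _
    simpa only [Polynomial.eval_add, Polynomial.eval_comp] using hz
  have hspots : ∀ x ∈ spotsB n s, A x = A' x := by
    intro x hx
    apply h'
    have h1 := hS n s hs x hx
    have h2 := eval_mono S hn2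
    omega
  intro hG b hb j hj hO'
  have hO : A ∈ Others n s b j := (loc_Others hb A A' hspots).mpr hO'
  have hinst : inst n s b j A = inst n s b j A' := inst_congr hb hspots
  have hlen : (inst n s b j A).length ≤ P.eval (2 ^ n) :=
    (hP n s b j A hs hb hj).trans (eval_mono P hn2)
  have hacc : accProb A (C (inst n s b j A)) = accProb A' (C (inst n s b j A')) := by
    rw [← hinst]
    refine H620R2.Gauge.accProb_local (N := 0) fun y k hk z hz => h' z ?_
    have h1 := (hq (inst n s b j A)).2 y k hk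
    have h2 := eval_mono q hlen
    omega
  have hZ0 : A ∈ NoHit (wl n) (half n s b (2 * j)) ↔ A' ∈ NoHit (wl n) (half n s b (2 * j)) :=
    loc_noHitHalf hb (by omega) A A' hspots
  obtain ⟨hG1, hG2⟩ := hG b hb j hj hO
  rw [hacc] at hG1 hG2
  exact ⟨fun h0 => hG1 (fun hA => h0 (hZ0.mp hA)), fun h0 => hG2 (hZ0.mpr h0)⟩

theorem key_Q {C : List Bool → List Unit × List Gate} (hC : PolyTime (fun x => bits (C x))) :
    ∃ n0, ∀ n ≥ n0, ∀ s, 4 ≤ s → s ≤ n → ∀ t < n, ∀ η : Set Oracle,
      Loc {x | x.length ≤ t} η → ll s * (7 / 8 * prob η) ≤ prob (η ∩ (GoodQ C n s)ᶜ) := by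
  classical
  obtain ⟨bG, hbG⟩ := loc_GoodQ hC
  obtain ⟨bC, hbC⟩ := H620R2.Gauge.circ_bound hC
  obtain ⟨P, hP⟩ := inst_length
  obtain ⟨n2, hn2⟩ := mul_poly_le_two_pow ((bC.comp P + 1) ^ 2) 2304
  refine ⟨n2, fun n hn s hs4 hsn t₀ ht₀ η hη => ?_⟩
  have hn2' := hn2 n hn
  set T : ℕ := bC.eval (P.eval n) + 1 with hT
  have hpoly : 2304 * T ^ 2 * 1 ≤ 2 ^ n := by
    refine le_trans (le_of_eq ?_) hn2'
    simp only [Polynomial.eval_pow, Polynomial.eval_add, Polynomial.eval_one,
      Polynomial.eval_comp]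
    rw [hT, mul_one]
  have h := key_blocksN (E := ∅) hs4 hsn ht₀ hη (hbG n s hsn) (fun _ _ _ => Iff.rfl) hpoly
    (fun b hb j hj B hBO hB0 => by
      have hlen : (C (inst n s b j B)).2.length ≤ T := by
        refine ((hbC (inst n s b j B)).1).trans ?_
        have := eval_mono bC (hP n s b j B hsn hb hj)
        omega
      obtain ⟨S, hSc, hS⟩ := H583R2.QC.heavy B (C (inst n s b j B)) (L := 1) (wl n) hlen
        (by omega) (by omega) (pair n s b j)
      refine ⟨S, fun _ => ∅, hSc, fun _ => by simp, fun κ hκ κ' hκ' h1 h2 _ _ h3 h4 => ?_⟩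
      exfalso
      have hκp : ({κ} : Finset Cand) ⊆ pair n s b j :=
        Finset.singleton_subset_iff.2 (Finset.mem_union_left _ hκ)
      have hκp' : ({κ'} : Finset Cand) ⊆ pair n s b j :=
        Finset.singleton_subset_iff.2 (Finset.mem_union_right _ hκ')
      have e1 := hS {κ} hκp (Finset.card_singleton κ).le (Finset.disjoint_singleton_left.2 h1)
      have e2 := hS {κ'} hκp' (Finset.card_singleton κ').le (Finset.disjoint_singleton_left.2 h2)
      have f1 := (h3 b hb j hj ((plant_Others hj hκp B).2 hBO)).1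
        (fun h7 => h7 κ hκ (M2.hit_plant_self (Finset.mem_singleton_self κ) B))
      have f2 := (h4 b hb j hj ((plant_Others hj hκp' B).2 hBO)).2
        (fun ρ hρ h7 => hB0 ρ (Finset.mem_union_left _ hρ) ((M2.hit_plant (fun h8 => by
          rw [Finset.mem_singleton] at h8
          rw [h8] at hρ
          exact Finset.disjoint_left.1 (half_disjoint n s b j) hρ hκ') B).1 h7))
      rw [inst_plant hj hκp] at f1
      rw [inst_plant hj hκp'] at f2
      rw [abs_le] at e1 e2
      linarith [e1.1, e1.2, e2.1, e2.2])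
  have h0 : prob (η ∩ (Bad n s ∩ ∅)) = 0 := by
    rw [Set.inter_empty, Set.inter_empty]
    unfold prob
    exact measureReal_empty
  rw [h0, zero_div, sub_zero] at h
  exact h

end Pool.Agent.H673R3.UC
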