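import Pool.Agent.H673R3.UQ.KeyQ
import Pool.Agent.H673R3.UC.M1
import Pool.Agent.H673R3.UC.N4
import Pool.Agent.H673R3.UC.S1
import Pool.Agent.H583R2.BK.Core
import Pool.Agent.H583R2.QC.Main

/-!
# `UP ∩ coUP` is not in `BQP` relative to a random oracle
-/

namespace Pool.Agent.H673R3.UC

open MeasureTheory Pool.Agent.NPC Pool.Agent.H628R3.RO

theorem UQ_mem_LL_inst {f : ℕ → Option ℕ} {n s b j : ℕ} {A : Oracle} (hf : f n = some s)
    (hb : b < BB s) (hj : j < KK s) (hA : A ∈ Others n s b j) :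
    inst n s b j A ∈ LL f A ↔ A ∉ NoHit (wl n) (half n s b (2 * j)) := by
  constructor
  · rintro ⟨D, s', h1, h2, -, h4⟩
    have h5 : D = instD n s b j A := bits_injective h1
    subst h5
    simp only [instD, List.length_replicate] at h2 h4
    rw [hf, Option.some.injEq] at h2
    subst h2
    exact h4
  · intro h
    refine ⟨instD n s b j A, s, rfl, ?_, inst_cert hb hj hA, ?_⟩
    · simp only [instD, List.length_replicate]
      exact hf
    · simp only [instD, List.length_replicate]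
      exact h

theorem core_Q : ∀ᵐ A ∂randomOracle, (∃ k, ∀ i ≥ k, A ∉ Inv (H583R2.BK.TT i) (i + 4)) ∧
    ∀ (C : H583R2.QC.Fam) (k : ℕ), ∃ i ≥ k, A ∉ GoodQ C.1 (H583R2.BK.TT i) (i + 4) :=
  H583R2.BK.core_zero (R := H583R2.QC.Fam) Inv (fun C => GoodQ C.1) (fun s => 200 * ee s) ll
    (fun s => mul_nonneg (by norm_num) (ee_nonneg s)) (summable_ee.mul_left 200) 0
    (fun n s _ hs hn => (prob_Inv_le hs hn).trans
      (mul_le_mul_of_nonneg_left (prob_Bad_le_ee hs hn) (by norm_num)))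
    ll_nonneg not_summable_ll (fun C => loc_GoodQ C.2) (fun C => key_Q C.2)

/-- With probability one, some language in `UP ∩ coUP` is not in `BQP`. -/
theorem upcoup_not_bqp : ∀ᵐ A ∂randomOracle, ∃ L : Set (List Bool),
    IsUP A L ∧ IsUP A Lᶜ ∧ ¬ H620R2.Gauge.IsBQP A L := by
  filter_upwards [core_Q] with A hA
  obtain ⟨⟨k, hk⟩, hG⟩ := hA
  set f := H583R2.BK.fT (H583R2.BK.TT k) with hf
  have hfn : ∀ n s, f n = some s → s ≤ n := by
    intro n s h
    obtain ⟨_, i, rfl, rfl⟩ := H583R2.BK.eq_of_fT h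
    exact H583R2.BK.le_TT i
  have hfA : ∀ n s, f n = some s → A ∉ Inv n s := by
    intro n s h
    obtain ⟨h3, i, rfl, rfl⟩ := H583R2.BK.eq_of_fT h
    exact hk i (H583R2.BK.strictMono_TT.le_iff_le.1 h3)
  refine ⟨LL f A, isUP_LL A f (H583R2.BK.p_fT _) hfn hfA,
    isUP_LLc A f (H583R2.BK.p_fT _) hfn hfA, ?_⟩
  rintro ⟨C, hC, hL⟩
  obtain ⟨i, hi, h3⟩ := hG ⟨C, hC⟩ k
  have hfi : f (H583R2.BK.TT i) = some (i + 4) :=
    H583R2.BK.fT_TT (H583R2.BK.strictMono_TT.monotone hi)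
  refine h3 fun b hb j hj ho => ⟨fun h1 => ?_, fun h1 => ?_⟩
  · exact (hL _).1 ((UQ_mem_LL_inst hfi hb hj ho).2 h1)
  · refine (hL _).2 fun h4 => ?_
    exact (UQ_mem_LL_inst hfi hb hj ho).1 h4 h1

end Pool.Agent.H673R3.UC
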